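import Mathlib

/-!
# Tilings of finite cyclic groups: mask polynomials and counting

`Til A C D`: every residue class modulo `D` is `a + c` for exactly one pair `(a, c)` of `A × C`.
-/

namespace Pool.Agent.H96.CM

open Finset Polynomial

/-- The mask polynomial of a finite set of natural numbers. -/
noncomputable def P (R : Type*) [Semiring R] (A : Finset ℕ) : R[X] := ∑ a ∈ A, X ^ a

/-- The number of pairs `(a, c)` with `(a + c) % D = y`. -/
def cnt (A C : Finset ℕ) (D y : ℕ) : ℕ :=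
  ((A ×ˢ C).filter (fun x => (x.1 + x.2) % D = y)).card

/-- Every residue class modulo `D` is `a + c` for exactly one pair `(a, c)` of `A × C`. -/
def Til (A C : Finset ℕ) (D : ℕ) : Prop := ∀ m : ℕ, cnt A C D (m % D) = 1

theorem cnt_comm (A C : Finset ℕ) (D y : ℕ) : cnt A C D y = cnt C A D y := by
  unfold cnt
  refine Finset.card_bij' (fun x _ => (x.2, x.1)) (fun x _ => (x.2, x.1)) ?_ ?_ ?_ ?_
  · intro x hx
    simp only [Finset.mem_filter, Finset.mem_product] at hx ⊢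
    exact ⟨⟨hx.1.2, hx.1.1⟩, by rw [add_comm]; exact hx.2⟩
  · intro x hx
    simp only [Finset.mem_filter, Finset.mem_product] at hx ⊢
    exact ⟨⟨hx.1.2, hx.1.1⟩, by rw [add_comm]; exact hx.2⟩
  · intro x _; rfl
  · intro x _; rfl

theorem Til.comm {A C : Finset ℕ} {D : ℕ} (h : Til A C D) : Til C A D := by
  intro m
  rw [cnt_comm]
  exact h m

theorem sum_cnt (A C : Finset ℕ) {D : ℕ} (hD : 0 < D) :
    ∑ y ∈ range D, cnt A C D y = A.card * C.card := by
  rw [← Finset.card_product]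
  unfold cnt
  exact (Finset.card_eq_sum_card_fiberwise
    (fun x _ => Finset.mem_coe.2 (Finset.mem_range.2 (Nat.mod_lt _ hD)))).symm

theorem Til.cnt_eq {A C : Finset ℕ} {D : ℕ} (h : Til A C D) {y : ℕ} (hy : y < D) :
    cnt A C D y = 1 := by
  have := h y
  rwa [Nat.mod_eq_of_lt hy] at this

theorem Til.card_mul {A C : Finset ℕ} {D : ℕ} (hD : 0 < D) (h : Til A C D) :
    A.card * C.card = D := by
  rw [← sum_cnt A C hD, Finset.sum_congr rfl (fun y hy => h.cnt_eq (Finset.mem_range.1 hy))]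
  simp

/-- translation of a finite set -/
def sh (A : Finset ℕ) (t : ℕ) : Finset ℕ := A.image (fun a => a + t)

theorem cnt_sh (A C : Finset ℕ) (D t m : ℕ) :
    cnt (sh A t) C D ((m + t) % D) = cnt A C D (m % D) := by
  unfold cnt sh
  refine (Finset.card_bij (fun x _ => (x.1 + t, x.2)) ?_ ?_ ?_).symm
  · intro x hx
    simp only [Finset.mem_filter, Finset.mem_product, Finset.mem_image] at hx ⊢
    refine ⟨⟨⟨x.1, hx.1.1, rfl⟩, hx.1.2⟩, ?_⟩
    have h1 : x.1 + x.2 ≡ m [MOD D] := hx.2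
    have h2 : x.1 + x.2 + t ≡ m + t [MOD D] := h1.add_right t
    have h3 : x.1 + t + x.2 = x.1 + x.2 + t := by ring
    rw [h3]
    exact h2
  · intro x _ y _ hxy
    simp only [Prod.mk.injEq, add_left_inj] at hxy
    exact Prod.ext hxy.1 hxy.2
  · intro y hy
    simp only [Finset.mem_filter, Finset.mem_product, Finset.mem_image] at hy
    obtain ⟨⟨⟨a, ha, hay⟩, hyc⟩, hym⟩ := hy
    refine ⟨(a, y.2), ?_, ?_⟩
    · simp only [Finset.mem_filter, Finset.mem_product]
      refine ⟨⟨ha, hyc⟩, ?_⟩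
      have h1 : y.1 + y.2 ≡ m + t [MOD D] := hym
      rw [← hay] at h1
      have h3 : a + t + y.2 = a + y.2 + t := by ring
      rw [h3] at h1
      exact Nat.ModEq.add_right_cancel' t h1
    · exact Prod.ext hay rfl

theorem Til.of_sh {A C : Finset ℕ} {D t : ℕ} (h : Til (sh A t) C D) : Til A C D := by
  intro m
  rw [← cnt_sh A C D t m]
  exact h (m + t)

theorem Til.sh {A C : Finset ℕ} {D : ℕ} (hD : 0 < D) (h : Til A C D) (t : ℕ) :
    Til (sh A t) C D := by
  intro m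
  -- choose `m'` with `m' + t ≡ m`
  have hm : (m + (D - t % D) + t) % D = m % D := by
    have h1 : t % D ≤ D := (Nat.mod_lt t hD).le
    have h2 : m + (D - t % D) + t = m + D * (t / D + 1) := by
      have h3 := Nat.div_add_mod t D
      have h4 : D - t % D + t % D = D := Nat.sub_add_cancel h1
      have h5 : D * (t / D + 1) = D * (t / D) + D := by ring
      omega
    rw [h2, Nat.add_mul_mod_self_left]
  have h6 := cnt_sh A C D t (m + (D - t % D))
  rw [hm] at h6
  rw [h6]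
  exact h _

theorem P_sh (R : Type*) [CommSemiring R] (A : Finset ℕ) (t : ℕ) : P R (sh A t) = P R A * X ^ t := by
  unfold P sh
  rw [Finset.sum_image (fun a _ b _ hab => by simpa using hab), Finset.sum_mul]
  exact Finset.sum_congr rfl fun a _ => pow_add X a t

theorem pow_sub_mod_dvd {R : Type*} [CommRing R] (D n : ℕ) :
    (X ^ D - 1 : R[X]) ∣ X ^ n - X ^ (n % D) := by
  have h1 : (X : R[X]) ^ n = X ^ (n % D) * (X ^ D) ^ (n / D) := by
    rw [← pow_mul, ← pow_add, Nat.mod_add_div]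
  have h2 : (X : R[X]) ^ n - X ^ (n % D) = X ^ (n % D) * ((X ^ D) ^ (n / D) - 1 ^ (n / D)) := by
    rw [one_pow, h1]; ring
  rw [h2]
  exact Dvd.dvd.mul_left (sub_dvd_pow_sub_pow _ _ _) _

theorem P_mul_dvd (R : Type*) [CommRing R] (A C : Finset ℕ) {D : ℕ} (hD : 0 < D) :
    (X ^ D - 1 : R[X]) ∣ P R A * P R C - ∑ y ∈ range D, (cnt A C D y : R[X]) * X ^ y := by
  have h1 : P R A * P R C = ∑ x ∈ A ×ˢ C, X ^ (x.1 + x.2) := by
    unfold P
    rw [Finset.sum_mul_sum, Finset.sum_product]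
    exact Finset.sum_congr rfl fun a _ => Finset.sum_congr rfl fun c _ => (pow_add X a c).symm
  have h2 : ∑ y ∈ range D, (cnt A C D y : R[X]) * X ^ y = ∑ x ∈ A ×ˢ C, X ^ ((x.1 + x.2) % D) := by
    rw [← Finset.sum_fiberwise_of_maps_to (s := A ×ˢ C) (t := range D)
      (g := fun x => (x.1 + x.2) % D) (fun x _ => Finset.mem_range.2 (Nat.mod_lt _ hD))
      (fun x => (X : R[X]) ^ ((x.1 + x.2) % D))]
    refine Finset.sum_congr rfl fun y _ => ?_
    rw [Finset.sum_congr rfl (g := fun _ => (X : R[X]) ^ y)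
      (fun x hx => by rw [(Finset.mem_filter.1 hx).2])]
    rw [Finset.sum_const, nsmul_eq_mul]
    rfl
  rw [h1, h2, ← Finset.sum_sub_distrib]
  exact Finset.dvd_sum fun x _ => pow_sub_mod_dvd D _

theorem Til.P_mul_dvd (R : Type*) [CommRing R] {A C : Finset ℕ} {D : ℕ} (hD : 0 < D)
    (h : Til A C D) :
    (X ^ D - 1 : R[X]) ∣ P R A * P R C - ∑ y ∈ range D, X ^ y := by
  have h1 := CM.P_mul_dvd R A C hD
  have h2 : ∑ y ∈ range D, (cnt A C D y : R[X]) * X ^ y = ∑ y ∈ range D, X ^ y :=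
    Finset.sum_congr rfl fun y hy => by
      rw [h.cnt_eq (Finset.mem_range.1 hy)]; simp
  rwa [h2] at h1

/-- one of the two factors of a tiling is divisible by the cyclotomic polynomial -/
theorem Til.cyc {A C : Finset ℕ} {D : ℕ} (hD : 0 < D) (h : Til A C D) {p M : ℕ} (hp : p.Prime)
    (hpD : p ^ (M + 1) ∣ D) :
    cyclotomic (p ^ (M + 1)) ℤ ∣ P ℤ A ∨ cyclotomic (p ^ (M + 1)) ℤ ∣ P ℤ C := by
  have hpr : Prime (cyclotomic (p ^ (M + 1)) ℤ) :=
    (cyclotomic.irreducible (pow_pos hp.pos _)).prime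
  apply hpr.dvd_or_dvd
  have h1 := h.P_mul_dvd ℤ hD
  have h2 : cyclotomic (p ^ (M + 1)) ℤ ∣ X ^ D - 1 := by
    refine (cyclotomic.dvd_X_pow_sub_one (p ^ (M + 1)) ℤ).trans ?_
    obtain ⟨k, hk⟩ := hpD
    have h3 := sub_dvd_pow_sub_pow ((X : ℤ[X]) ^ p ^ (M + 1)) 1 k
    rw [one_pow, ← pow_mul, ← hk] at h3
    exact h3
  have h3 : cyclotomic (p ^ (M + 1)) ℤ ∣ ∑ y ∈ range D, (X : ℤ[X]) ^ y :=
    cyclotomic_dvd_geom_sum_of_dvd ℤ hpD (Nat.one_lt_pow (by omega) hp.one_lt).ne'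
  have h4 := dvd_add (h2.trans h1) h3
  rwa [sub_add_cancel] at h4

theorem dvd_card_of_cyc {A : Finset ℕ} {p M : ℕ} (hp : p.Prime)
    (h : cyclotomic (p ^ (M + 1)) ℤ ∣ P ℤ A) : p ∣ A.card := by
  have : Fact p.Prime := ⟨hp⟩
  obtain ⟨E, hE⟩ := h
  have h1 := congrArg (eval 1) hE
  rw [eval_mul, eval_one_cyclotomic_prime_pow] at h1
  have h2 : eval 1 (P ℤ A) = (A.card : ℤ) := by
    unfold P
    rw [eval_finsetSum]
    simp
  rw [h2] at h1
  exact Int.natCast_dvd_natCast.1 ⟨_, h1⟩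

end Pool.Agent.H96.CM
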