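import Pool.Agent.H96.CM.Sum

/-!
# Residues of a tile modulo its cardinality

If `A ⊕ B` tiles the cyclic group of order `D` then either the elements of `A` are pairwise
incongruent modulo `A.card`, or each of them is congruent to another one.
-/

namespace Pool.Agent.H96.CM

open Finset Polynomial

theorem mod_sub_one {a q : ℕ} (hq : 0 < q) :
    (a + (q - 1)) % q = if a % q = 0 then q - 1 else a % q - 1 := by
  have h1 := Nat.mod_lt a hq
  have h2 : a = q * (a / q) + a % q := (Nat.div_add_mod a q).symm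
  split_ifs with h
  · have h3 : a + (q - 1) = (q - 1) + q * (a / q) := by omega
    rw [h3, Nat.add_mul_mod_self_left, Nat.mod_eq_of_lt (by omega)]
  · have h3 : a + (q - 1) = (a % q - 1) + q * (a / q + 1) := by
      have h4 : q * (a / q + 1) = q * (a / q) + q := by ring
      omega
    rw [h3, Nat.add_mul_mod_self_left, Nat.mod_eq_of_lt (by omega)]

theorem w_ne {n : ℕ} {e : ℕ → ℕ} {p a : ℕ} (hp : p.Prime) (he : 0 < e p) (h : w n e p a ≠ 0) :
    (p ∣ n → p ^ (e p - 1) ∣ a) ∧ (¬ p ∣ n → p ^ e p ∣ a) := by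
  constructor
  · intro hn
    unfold w at h
    rw [if_pos hn] at h
    obtain ⟨M, hM⟩ : ∃ M, e p = M + 1 := ⟨e p - 1, (Nat.sub_add_cancel he).symm⟩
    rw [hM, Nat.add_sub_cancel] at h ⊢
    have hq : 0 < p ^ (M + 1) := pow_pos hp.pos _
    have hr : 0 < p ^ M := pow_pos hp.pos _
    rw [mod_sub_one hq] at h
    have hrq : p ^ M ∣ p ^ (M + 1) := pow_dvd_pow p (Nat.le_succ M)
    have h1 : a % p ^ (M + 1) = 0 ∨ a % p ^ (M + 1) = p ^ M := by
      by_contra hcon
      push Not at hcon
      obtain ⟨h2, h3⟩ := hcon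
      rw [if_neg h2] at h
      apply h
      by_cases h4 : a % p ^ (M + 1) < p ^ M
      · rw [if_pos h4, if_pos (by omega)]; rfl
      · rw [if_neg h4, if_neg (by omega)]; rfl
    have h2 : p ^ M ∣ a % p ^ (M + 1) := by
      rcases h1 with h1 | h1
      · rw [h1]; exact dvd_zero _
      · rw [h1]
    exact (Nat.dvd_mod_iff hrq).1 h2
  · intro hn
    unfold w at h
    rw [if_neg hn] at h
    by_contra h1
    exact h (if_neg h1)

theorem w_one {n : ℕ} {e : ℕ → ℕ} {p a : ℕ} (hp : p.Prime) (he : 0 < e p) (h : p ^ e p ∣ a) :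
    w n e p a = 1 := by
  unfold w
  by_cases hn : p ∣ n
  · rw [if_pos hn]
    obtain ⟨M, hM⟩ : ∃ M, e p = M + 1 := ⟨e p - 1, (Nat.sub_add_cancel he).symm⟩
    rw [hM] at h ⊢
    rw [Nat.add_sub_cancel]
    have hq : 0 < p ^ (M + 1) := pow_pos hp.pos _
    have hr : 0 < p ^ M := pow_pos hp.pos _
    rw [mod_sub_one hq, if_pos (Nat.mod_eq_zero_of_dvd h), Nat.mod_eq_zero_of_dvd h, if_pos hr,
      if_neg, sub_zero]
    have h1 : p ^ (M + 1) = p ^ M * p := pow_succ p M
    have h2 : p ^ M * 2 ≤ p ^ M * p := Nat.mul_le_mul_left _ hp.two_le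
    omega
  · rw [if_neg hn, if_pos h]

theorem sh_card (A : Finset ℕ) (t : ℕ) : (sh A t).card = A.card :=
  Finset.card_image_of_injective _ (add_left_injective t)

theorem two_in_class {A B : Finset ℕ} {D : ℕ} (hD : 0 < D) (hT : Til A B D)
    (hB : B.card ≠ 1)
    (hno : ∀ p, p.Prime → p ∣ D → ¬ cyclotomic (p ^ D.factorization p) ℤ ∣ P ℤ B) :
    ∀ x ∈ A, ∃ y ∈ A, y ≠ x ∧ x ≡ y [MOD A.card] := by
  classical
  intro x hx
  have hcard := hT.card_mul hD
  set t := D - x % D with ht
  have hxt : D ∣ x + t := by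
    have h1 := (Nat.mod_lt x hD).le
    have h2 := Nat.div_add_mod x D
    refine ⟨x / D + 1, ?_⟩
    have h3 : D * (x / D + 1) = D * (x / D) + D := by ring
    omega
  have hT' : Til (sh A t) B D := hT.sh hD t
  have hcond : Cond B (fun p => D.factorization p) D.primeFactors D := by
    refine ⟨hD, fun p hp => ?_⟩
    have hpp := Nat.prime_of_mem_primeFactors hp
    have hpd := Nat.dvd_of_mem_primeFactors hp
    exact ⟨hpp, hpp.factorization_pos_of_dvd hD.ne' hpd, rfl, fun _ => hno p hpp hpd⟩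
  obtain ⟨p, hpp, hpB⟩ := Nat.exists_prime_and_dvd hB
  have hpD : p ∣ D := hpB.trans (Dvd.intro_left _ hcard)
  have hsum := sum_eq_zero hcond hT' (Nat.mem_primeFactors.2 ⟨hpp, hpD, hD.ne'⟩) hpB
  have hmem : x + t ∈ sh A t := Finset.mem_image.2 ⟨x, hx, rfl⟩
  have hterm : ∏ q ∈ D.primeFactors, w B.card (fun p => D.factorization p) q (x + t) = 1 := by
    refine Finset.prod_eq_one fun q hq => ?_
    obtain ⟨h1, h2, -, -⟩ := hcond.2 q hq
    exact w_one h1 h2 ((Nat.ordProj_dvd D q).trans hxt)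
  have hex : ∃ a ∈ sh A t, a ≠ x + t ∧
      ∏ q ∈ D.primeFactors, w B.card (fun p => D.factorization p) q a ≠ 0 := by
    by_contra hcon
    push Not at hcon
    rw [Finset.sum_eq_single_of_mem (x + t) hmem (fun a ha hne => hcon a ha hne), hterm] at hsum
    exact one_ne_zero hsum
  obtain ⟨a, ha, hne, hprod⟩ := hex
  obtain ⟨y, hy, hya⟩ := Finset.mem_image.1 ha
  have hw := Finset.prod_ne_zero_iff.1 hprod
  have hApos : A.card ≠ 0 := by
    intro h0
    rw [h0, zero_mul] at hcard
    exact hD.ne hcard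
  have hBpos : B.card ≠ 0 := by
    intro h0
    rw [h0, mul_zero] at hcard
    exact hD.ne hcard
  have hna : A.card ∣ a := by
    rw [Nat.dvd_iff_prime_pow_dvd_dvd]
    intro q k hq hk
    rcases Nat.eq_zero_or_pos k with h0 | h0
    · rw [h0, pow_zero]; exact one_dvd a
    · have hqA : q ∣ A.card := (dvd_pow_self q h0.ne').trans hk
      have hqD : q ∣ D := hqA.trans (Dvd.intro _ hcard)
      have hqT : q ∈ D.primeFactors := Nat.mem_primeFactors.2 ⟨hq, hqD, hD.ne'⟩
      obtain ⟨h1, h2, -, -⟩ := hcond.2 q hqT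
      obtain ⟨h3, h4⟩ := w_ne h1 h2 (hw q hqT)
      have h5 : k ≤ A.card.factorization q := (hq.pow_dvd_iff_le_factorization hApos).1 hk
      have h6 : D.factorization q = A.card.factorization q + B.card.factorization q := by
        rw [← hcard, Nat.factorization_mul hApos hBpos, Finsupp.add_apply]
      by_cases hqB : q ∣ B.card
      · have h7 := hq.factorization_pos_of_dvd hBpos hqB
        refine (pow_dvd_pow q ?_).trans (h3 hqB)
        show k ≤ D.factorization q - 1
        omega
      · refine (pow_dvd_pow q ?_).trans (h4 hqB)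
        show k ≤ D.factorization q
        omega
  refine ⟨y, hy, ?_, ?_⟩
  · rintro rfl
    exact hne hya.symm
  · have h1 : x + t ≡ y + t [MOD A.card] := by
      have h2 : A.card ∣ x + t := (Dvd.intro _ hcard : A.card ∣ D).trans hxt
      have h3 : A.card ∣ y + t := by rw [hya]; exact hna
      exact ((Nat.modEq_zero_iff_dvd.2 h2).trans (Nat.modEq_zero_iff_dvd.2 h3).symm)
    exact Nat.ModEq.add_right_cancel' t h1

theorem main_alt : ∀ (D : ℕ) (A B : Finset ℕ), 0 < D → Til A B D →
    (∀ x ∈ A, ∀ y ∈ A, x ≡ y [MOD A.card] → x = y) ∨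
      (∀ x ∈ A, ∃ y ∈ A, y ≠ x ∧ x ≡ y [MOD A.card]) := by
  intro D
  induction D using Nat.strong_induction_on with
  | _ D ih =>
    intro A B hD hT
    have hcard := hT.card_mul hD
    by_cases hB : B.card = 1
    · left
      rw [hB, mul_one] at hcard
      rw [hcard]
      intro x hx y hy hxy
      obtain ⟨c, hc⟩ := Finset.card_eq_one.1 hB
      have h1 := hT (x + c)
      unfold cnt at h1
      obtain ⟨z, hz⟩ := Finset.card_eq_one.1 h1
      have h2 : (x, c) ∈ ({z} : Finset (ℕ × ℕ)) := by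
        rw [← hz, Finset.mem_filter, Finset.mem_product]
        exact ⟨⟨hx, by rw [hc]; exact Finset.mem_singleton_self c⟩, rfl⟩
      have h3 : (y, c) ∈ ({z} : Finset (ℕ × ℕ)) := by
        rw [← hz, Finset.mem_filter, Finset.mem_product]
        exact ⟨⟨hy, by rw [hc]; exact Finset.mem_singleton_self c⟩, (hxy.add_right c).symm⟩
      rw [Finset.mem_singleton] at h2 h3
      exact (Prod.ext_iff.1 (h2.trans h3.symm)).1
    · by_cases hex : ∃ p, p.Prime ∧ p ∣ D ∧ cyclotomic (p ^ D.factorization p) ℤ ∣ P ℤ B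
      · obtain ⟨p, hp, hpD, hcyc⟩ := hex
        have hpos := hp.factorization_pos_of_dvd hD.ne' hpD
        obtain ⟨M, hM⟩ : ∃ M, D.factorization p = M + 1 :=
          ⟨D.factorization p - 1, (Nat.sub_add_cancel hpos).symm⟩
        obtain ⟨D', hD', hpD', hDe⟩ := exists_decomp hD hp hM
        rw [hM] at hcyc
        have h1 : Til B A (p ^ (M + 1) * D') := by rw [← hDe]; exact hT.comm
        have h2 := (slab hp hD' hpD' h1 hcyc).comm
        have hlt : p ^ M * D' < D := by
          rw [hDe]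
          exact Nat.mul_lt_mul_of_pos_right
            (Nat.pow_lt_pow_right hp.one_lt (Nat.lt_succ_self M)) hD'
        exact ih _ hlt A (W B p M) (Nat.mul_pos (pow_pos hp.pos M) hD') h2
      · right
        push Not at hex
        exact two_in_class hD hT hB hex

end Pool.Agent.H96.CM
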