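import Pool.Agent.H96.CM.Slab

/-!
# The slab theorem for tilings
-/

namespace Pool.Agent.H96.CM

open Finset Polynomial

theorem cyc_geom {S : Type*} [CommRing S] {p : ℕ} (hp : p.Prime) (M : ℕ) :
    (X : S[X]) ^ p ^ M ∣ cyclotomic (p ^ (M + 1)) S - C 1 := by
  rw [cyclotomic_prime_pow_eq_geom_sum hp]
  have h1 := Finset.sum_range_succ' (fun i => ((X : S[X]) ^ p ^ M) ^ i) (p - 1)
  rw [Nat.sub_add_cancel hp.pos] at h1
  rw [h1, pow_zero, C_1, add_sub_cancel_right]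
  refine Finset.dvd_sum fun i _ => ?_
  rw [pow_succ]
  exact Dvd.intro_left _ rfl

/-- divisibility by the cyclotomic polynomial means periodicity modulo `p ^ M` -/
theorem per_of_cyc {A : Finset ℕ} {p M : ℕ} (hp : p.Prime)
    (h : cyclotomic (p ^ (M + 1)) ℤ ∣ P ℤ A) :
    ∑ a ∈ A, (X : ℤ[X]) ^ (a % p ^ (M + 1)) =
      cyclotomic (p ^ (M + 1)) ℤ * ∑ a ∈ W A p M, (X : ℤ[X]) ^ (a % p ^ (M + 1)) := by
  have hq : 0 < p ^ (M + 1) := pow_pos hp.pos _
  have hlt : p ^ M < p ^ (M + 1) := Nat.pow_lt_pow_right hp.one_lt (Nat.lt_succ_self M)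
  have h1 : cyclotomic (p ^ (M + 1)) ℤ ∣ ∑ a ∈ A, (X : ℤ[X]) ^ (a % p ^ (M + 1)) := by
    have h2 : (X ^ p ^ (M + 1) - 1 : ℤ[X]) ∣
        P ℤ A - ∑ a ∈ A, (X : ℤ[X]) ^ (a % p ^ (M + 1)) := by
      unfold P
      rw [← Finset.sum_sub_distrib]
      exact Finset.dvd_sum fun a _ => pow_sub_mod_dvd _ _
    have h3 := dvd_sub h ((cyclotomic.dvd_X_pow_sub_one (p ^ (M + 1)) ℤ).trans h2)
    rwa [sub_sub_cancel] at h3
  obtain ⟨E, hE⟩ := h1
  have hC : ∀ B : Finset ℕ, ∑ a ∈ B, (X : ℤ[X]) ^ (a % p ^ (M + 1)) =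
      ∑ a ∈ B, C ((fun _ => 1) a) * (X : ℤ[X]) ^ (a % p ^ (M + 1)) := by
    intro B
    exact Finset.sum_congr rfl fun a _ => by simp
  have hdegF : (∑ a ∈ A, (X : ℤ[X]) ^ (a % p ^ (M + 1))).degree <
      ((p ^ M * (p - 1) + p ^ M : ℕ) : WithBot ℕ) := by
    have h4 : p ^ M * (p - 1) + p ^ M = p ^ (M + 1) := by
      obtain ⟨k, rfl⟩ : ∃ k, p = k + 1 := ⟨p - 1, (Nat.sub_add_cancel hp.pos).symm⟩
      rw [Nat.add_sub_cancel, pow_succ]; ring
    rw [h4, hC]
    exact degree_sum_lt' A _ _ _ fun a _ => Nat.mod_lt _ hq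
  have hdegG : (∑ a ∈ W A p M, (X : ℤ[X]) ^ (a % p ^ (M + 1))).degree <
      ((p ^ M : ℕ) : WithBot ℕ) := by
    rw [hC]
    refine degree_sum_lt' _ _ _ _ fun a ha => ?_
    unfold W at ha
    exact (Finset.mem_filter.1 ha).2
  have htr : (X : ℤ[X]) ^ p ^ M ∣ ∑ a ∈ A, (X : ℤ[X]) ^ (a % p ^ (M + 1)) -
      ∑ a ∈ W A p M, (X : ℤ[X]) ^ (a % p ^ (M + 1)) := by
    unfold W
    rw [← Finset.sum_filter_add_sum_filter_not A (fun a => a % p ^ (M + 1) < p ^ M),
      add_sub_cancel_left]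
    refine Finset.dvd_sum fun a ha => ?_
    rw [Finset.mem_filter, not_lt] at ha
    exact pow_dvd_pow X ha.2
  have hG := trunc_eq (r := p ^ M) (k := p ^ M * (p - 1)) (u := (1 : ℤ))
    (cyclotomic.monic (p ^ (M + 1)) ℤ)
    (by rw [natDegree_cyclotomic, Nat.totient_prime_pow_succ hp]) hdegF hE (cyc_geom hp M)
    hdegG htr
  rw [hG, C_1, one_mul, hE]

theorem card_W {A : Finset ℕ} {p M : ℕ} (hp : p.Prime)
    (h : cyclotomic (p ^ (M + 1)) ℤ ∣ P ℤ A) : A.card = p * (W A p M).card := by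
  have h1 := congrArg (eval 1) (per_of_cyc hp h)
  have : Fact p.Prime := ⟨hp⟩
  rw [eval_mul, eval_one_cyclotomic_prime_pow, eval_finsetSum, eval_finsetSum] at h1
  simp only [eval_pow, eval_X, one_pow, Finset.sum_const, nsmul_eq_mul, mul_one] at h1
  exact_mod_cast h1

/-- **The slab theorem.** -/
theorem slab {A B : Finset ℕ} {p M D' : ℕ} (hp : p.Prime) (hD' : 0 < D') (hpD : ¬ p ∣ D')
    (hT : Til A B (p ^ (M + 1) * D')) (hc : cyclotomic (p ^ (M + 1)) ℤ ∣ P ℤ A) :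
    Til (W A p M) B (p ^ M * D') := by
  have : Fact p.Prime := ⟨hp⟩
  let K := AlgebraicClosure (ZMod p)
  have : CharP K p := charP_of_injective_algebraMap (algebraMap (ZMod p) K).injective p
  have hDK : (D' : K) ≠ 0 := by
    intro h0
    exact hpD ((CharP.cast_eq_zero_iff K p D').1 h0)
  have : NeZero (D' : K) := ⟨hDK⟩
  obtain ⟨ζ0, hζ0⟩ := HasEnoughRootsOfUnity.exists_primitiveRoot K D'
  have hDpos : 0 < p ^ (M + 1) * D' := Nat.mul_pos (pow_pos hp.pos _) hD'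
  have hDpos' : 0 < p ^ M * D' := Nat.mul_pos (pow_pos hp.pos _) hD'
  have h1 := hT.P_mul_dvd K hDpos
  have hmain : (X : K[X]) ^ (p ^ M * D') - 1 ∣ P K (W A p M) * P K B - T K (p ^ M * D') := by
    refine prod_dvd hD' hζ0 M fun ζ hζ => ?_
    have h2 : (X - C ζ : K[X]) ^ p ^ (M + 1) ∣ P K A * P K B - T K (p ^ (M + 1) * D') :=
      (X_sub_C_pow_dvd hζ (M + 1)).trans h1
    by_cases h : ζ = 1
    · subst h
      refine slab_one M D' A (P K B) ?_ h2
      have h3 := congrArg (Polynomial.map (Int.castRingHom K)) (per_of_cyc hp hc)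
      rw [Polynomial.map_mul, map_cyclotomic, Polynomial.map_sum, Polynomial.map_sum] at h3
      simp only [Polynomial.map_pow, map_X] at h3
      rw [h3, cyclotomic_prime_pow_eq_geom_sum hp, pow_geom]
      congr 1
      refine Finset.sum_congr rfl fun i _ => ?_
      rw [one_pow, C_1, one_pow, mul_one]
    · have h3 := dvd_add h2 (T_dvd h hζ (M + 1))
      rw [sub_add_cancel] at h3
      exact dvd_sub (slab_zeta ζ M A (P K B) h3) (T_dvd h hζ M)
  have h2 := P_mul_dvd K (W A p M) B hDpos'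
  have h3 : (X : K[X]) ^ (p ^ M * D') - 1 ∣
      ∑ y ∈ range (p ^ M * D'), C ((cnt (W A p M) B (p ^ M * D') y : K) - 1) * X ^ y := by
    have h4 := dvd_sub hmain h2
    have h5 : P K (W A p M) * P K B - T K (p ^ M * D') - (P K (W A p M) * P K B -
        ∑ y ∈ range (p ^ M * D'), (cnt (W A p M) B (p ^ M * D') y : K[X]) * X ^ y) =
        ∑ y ∈ range (p ^ M * D'), C ((cnt (W A p M) B (p ^ M * D') y : K) - 1) * X ^ y := by
      unfold T
      rw [sub_sub_sub_cancel_left, ← Finset.sum_sub_distrib]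
      refine Finset.sum_congr rfl fun y _ => ?_
      rw [C_sub, C_1, sub_mul, one_mul, C_eq_natCast]
    rwa [h5] at h4
  have h4 : ∑ y ∈ range (p ^ M * D'),
      C ((cnt (W A p M) B (p ^ M * D') y : K) - 1) * (X : K[X]) ^ y = 0 := by
    refine eq_zero_of_dvd_of_degree_lt h3 ?_
    have h5 : ((X : K[X]) ^ (p ^ M * D') - 1).degree = ((p ^ M * D' : ℕ) : WithBot ℕ) := by
      rw [← C_1, degree_X_pow_sub_C hDpos']
    rw [h5]
    exact degree_sum_lt' _ _ _ _ fun y hy => Finset.mem_range.1 hy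
  have h5 : ∀ y < p ^ M * D', 1 ≤ cnt (W A p M) B (p ^ M * D') y := by
    intro y hy
    have h6 := congrArg (fun f => Polynomial.coeff f y) h4
    simp only [finsetSum_coeff, coeff_C_mul_X_pow, coeff_zero] at h6
    rw [Finset.sum_ite_eq (range (p ^ M * D')) y, if_pos (Finset.mem_range.2 hy)] at h6
    by_contra h7
    have h8 : cnt (W A p M) B (p ^ M * D') y = 0 := by omega
    rw [h8, Nat.cast_zero, zero_sub, neg_eq_zero] at h6
    exact one_ne_zero h6
  have h6 : ∑ y ∈ range (p ^ M * D'), cnt (W A p M) B (p ^ M * D') y = p ^ M * D' := by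
    rw [sum_cnt _ _ hDpos']
    have h7 := hT.card_mul hDpos
    rw [card_W hp hc] at h7
    have h8 : p * ((W A p M).card * B.card) = p * (p ^ M * D') := by
      rw [← mul_assoc, h7]; ring
    exact Nat.eq_of_mul_eq_mul_left hp.pos h8
  intro m
  have hm := Nat.mod_lt m hDpos'
  by_contra hne
  have h7 : 1 < cnt (W A p M) B (p ^ M * D') (m % (p ^ M * D')) :=
    lt_of_le_of_ne (h5 _ hm) (Ne.symm hne)
  have h8 : ∑ _y ∈ range (p ^ M * D'), 1 <
      ∑ y ∈ range (p ^ M * D'), cnt (W A p M) B (p ^ M * D') y :=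
    Finset.sum_lt_sum (fun y hy => h5 y (Finset.mem_range.1 hy))
      ⟨_, Finset.mem_range.2 hm, h7⟩
  rw [h6] at h8
  simp at h8

end Pool.Agent.H96.CM
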