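import Pool.Agent.H96.CM.Base

/-!
# The slab theorem

If `A ⊕ C` tiles the cyclic group of order `p ^ (M + 1) * D'`, `p` does not divide `D'`, and
`Φ_{p ^ (M + 1)}` divides `A(X)`, then `{a ∈ A : a % p ^ (M + 1) < p ^ M} ⊕ C` tiles the cyclic
group of order `p ^ M * D'`.
-/

namespace Pool.Agent.H96.CM

open Finset Polynomial

/-- a window of length `p ^ M` modulo `p ^ (M + 1)` -/
def W (A : Finset ℕ) (p M : ℕ) : Finset ℕ := A.filter (fun a => a % p ^ (M + 1) < p ^ M)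

theorem trunc_eq {S : Type*} [CommRing S] [IsDomain S] {F H E G : S[X]} {r k : ℕ} {u : S}
    (hH : H.Monic) (hdeg : H.natDegree = k) (hF : F.degree < ((k + r : ℕ) : WithBot ℕ))
    (hFHE : F = H * E) (hHu : X ^ r ∣ H - C u) (hG : G.degree < (r : WithBot ℕ))
    (hFG : X ^ r ∣ F - G) : G = C u * E := by
  have hE : E.degree < (r : WithBot ℕ) := by
    by_cases h0 : E = 0
    · rw [h0, degree_zero]; exact WithBot.bot_lt_coe r
    · rw [hFHE, degree_mul, degree_eq_natDegree hH.ne_zero, hdeg,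
        degree_eq_natDegree h0] at hF
      rw [degree_eq_natDegree h0]
      have h1 : k + E.natDegree < k + r := by exact_mod_cast hF
      exact_mod_cast Nat.lt_of_add_lt_add_left h1
  have h1 : X ^ r ∣ G - C u * E := by
    have h2 : G - C u * E = (H - C u) * E - (F - G) := by rw [hFHE]; ring
    rw [h2]
    exact dvd_sub (Dvd.dvd.mul_right hHu E) hFG
  have h2 : (G - C u * E).degree < (X ^ r : S[X]).degree := by
    rw [degree_X_pow]
    refine lt_of_le_of_lt (degree_sub_le _ _) (max_lt hG ?_)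
    refine lt_of_le_of_lt (degree_mul_le _ _) ?_
    refine lt_of_le_of_lt (add_le_add_left degree_C_le _) ?_
    simpa using hE
  have h3 := eq_zero_of_dvd_of_degree_lt h1 h2
  exact sub_eq_zero.1 h3

/-- splitting a power of a prime element dividing a product -/
theorem pow_dvd_split {S : Type*} [CommRing S] [IsDomain S] {π : S} (hπ : Prime π) {f g : S} :
    ∀ n a b : ℕ, a + b = n → π ^ n ∣ f * g → 0 < a → 0 < b → π ^ a ∣ f ∨ π ^ b ∣ g := by
  intro n a b hn h ha hb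
  by_contra hcon
  push Not at hcon
  obtain ⟨h1, h2⟩ := hcon
  -- take maximal powers
  have hf : ∃ k, k < a ∧ π ^ k ∣ f ∧ ¬ π ^ (k + 1) ∣ f := by
    have hex : ∃ j, ¬ π ^ (j + 1) ∣ f := ⟨a - 1, by rwa [Nat.sub_add_cancel ha]⟩
    classical
    refine ⟨Nat.find hex, ?_, ?_, Nat.find_spec hex⟩
    · have h3 : Nat.find hex ≤ a - 1 := Nat.find_min' hex (by rwa [Nat.sub_add_cancel ha])
      omega
    · rcases Nat.eq_zero_or_pos (Nat.find hex) with h3 | h3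
      · rw [h3, pow_zero]; exact one_dvd f
      · have h4 := Nat.find_min hex (m := Nat.find hex - 1) (by omega)
        rw [not_not, Nat.sub_add_cancel h3] at h4
        exact h4
  have hg : ∃ k, k < b ∧ π ^ k ∣ g ∧ ¬ π ^ (k + 1) ∣ g := by
    have hex : ∃ j, ¬ π ^ (j + 1) ∣ g := ⟨b - 1, by rwa [Nat.sub_add_cancel hb]⟩
    classical
    refine ⟨Nat.find hex, ?_, ?_, Nat.find_spec hex⟩
    · have h3 : Nat.find hex ≤ b - 1 := Nat.find_min' hex (by rwa [Nat.sub_add_cancel hb])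
      omega
    · rcases Nat.eq_zero_or_pos (Nat.find hex) with h3 | h3
      · rw [h3, pow_zero]; exact one_dvd g
      · have h4 := Nat.find_min hex (m := Nat.find hex - 1) (by omega)
        rw [not_not, Nat.sub_add_cancel h3] at h4
        exact h4
  obtain ⟨k, hk, hk1, hk2⟩ := hf
  obtain ⟨l, hl, hl1, hl2⟩ := hg
  have h3 : π ^ (k + l + 1) ∣ f * g := (pow_dvd_pow π (by omega)).trans h
  rcases succ_dvd_or_succ_dvd_of_succ_sum_dvd_mul hπ hk1 hl1 h3 with h4 | h4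
  · exact hk2 h4
  · exact hl2 h4

section Field

variable {K : Type*} [Field K] {p : ℕ} [hp : Fact p.Prime] [CharP K p]

theorem pow_q (ζ : K) (j : ℕ) : (X - C ζ : K[X]) ^ p ^ j = X ^ p ^ j - C (ζ ^ p ^ j) := by
  rw [sub_pow_char_pow, C_pow]

/-- `(X - ζ) ^ (q - r)` as a geometric sum -/
theorem pow_geom (ζ : K) (M : ℕ) : (X - C ζ : K[X]) ^ (p ^ (M + 1) - p ^ M) =
    ∑ i ∈ range p, (X ^ p ^ M) ^ i * (C (ζ ^ p ^ M)) ^ (p - 1 - i) := by
  have h1 := geom_sum₂_mul ((X : K[X]) ^ p ^ M) (C (ζ ^ p ^ M)) p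
  have h2 : ((X : K[X]) ^ p ^ M) ^ p - (C (ζ ^ p ^ M)) ^ p = (X - C ζ) ^ p ^ (M + 1) := by
    rw [pow_q, ← pow_mul, ← C_pow, ← pow_mul, pow_succ]
  have h3 : (X - C ζ : K[X]) ^ p ^ M = X ^ p ^ M - C (ζ ^ p ^ M) := pow_q ζ M
  have hle : p ^ M ≤ p ^ (M + 1) := Nat.pow_le_pow_right hp.out.pos (Nat.le_succ M)
  have h4 : (X - C ζ : K[X]) ^ (p ^ (M + 1) - p ^ M) * (X - C ζ) ^ p ^ M =
      (X - C ζ) ^ p ^ (M + 1) := by rw [← pow_add, Nat.sub_add_cancel hle]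
  rw [h2, ← h3, ← h4] at h1
  exact (mul_right_cancel₀ (pow_ne_zero _ (X_sub_C_ne_zero ζ)) h1).symm

theorem geom_trunc (ζ : K) (M : ℕ) :
    (X : K[X]) ^ p ^ M ∣ (X - C ζ) ^ (p ^ (M + 1) - p ^ M) - C ((ζ ^ p ^ M) ^ (p - 1)) := by
  rw [pow_geom]
  have h1 := Finset.sum_range_succ'
    (fun i => ((X : K[X]) ^ p ^ M) ^ i * (C (ζ ^ p ^ M)) ^ (p - 1 - i)) (p - 1)
  rw [Nat.sub_add_cancel hp.out.pos] at h1
  rw [h1, pow_zero, one_mul, Nat.sub_zero, ← C_pow, add_sub_cancel_right]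
  refine Finset.dvd_sum fun i _ => ?_
  rw [pow_succ]
  exact Dvd.dvd.mul_right (Dvd.intro_left _ rfl) _

/-- the mask polynomial reduced modulo `(X - ζ) ^ q` -/
noncomputable def red (ζ : K) (q : ℕ) (A : Finset ℕ) : K[X] :=
  ∑ a ∈ A, C ((ζ ^ q) ^ (a / q)) * X ^ (a % q)

theorem red_dvd (ζ : K) (j : ℕ) (A : Finset ℕ) :
    (X - C ζ : K[X]) ^ p ^ j ∣ P K A - red ζ (p ^ j) A := by
  unfold P red
  rw [← Finset.sum_sub_distrib]
  refine Finset.dvd_sum fun a _ => ?_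
  have h1 : (X : K[X]) ^ a = X ^ (a % p ^ j) * (X ^ p ^ j) ^ (a / p ^ j) := by
    rw [← pow_mul, ← pow_add, Nat.mod_add_div]
  have h2 : (X : K[X]) ^ a - C ((ζ ^ p ^ j) ^ (a / p ^ j)) * X ^ (a % p ^ j) =
      X ^ (a % p ^ j) * ((X ^ p ^ j) ^ (a / p ^ j) - (C (ζ ^ p ^ j)) ^ (a / p ^ j)) := by
    rw [h1, C_pow]; ring
  rw [h2, pow_q]
  exact Dvd.dvd.mul_left (sub_dvd_pow_sub_pow _ _ _) _

theorem degree_sum_lt' {S : Type*} [CommRing S] (A : Finset ℕ) (f : ℕ → S) (g : ℕ → ℕ) (n : ℕ)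
    (h : ∀ a ∈ A, g a < n) : (∑ a ∈ A, C (f a) * X ^ g a : S[X]).degree < (n : WithBot ℕ) := by
  rw [← mem_degreeLT]
  refine Submodule.sum_mem _ fun a ha => ?_
  rw [mem_degreeLT]
  exact lt_of_le_of_lt (degree_C_mul_X_pow_le _ _) (by exact_mod_cast h a ha)

omit hp [CharP K p] in
theorem red_trunc (ζ : K) (M : ℕ) (A : Finset ℕ) :
    (X : K[X]) ^ p ^ M ∣ red ζ (p ^ (M + 1)) A - red ζ (p ^ (M + 1)) (W A p M) := by
  unfold red W
  rw [← Finset.sum_filter_add_sum_filter_not A (fun a => a % p ^ (M + 1) < p ^ M),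
    add_sub_cancel_left]
  refine Finset.dvd_sum fun a ha => ?_
  rw [Finset.mem_filter, not_lt] at ha
  exact Dvd.dvd.mul_left (pow_dvd_pow X ha.2) _

theorem slab_zeta (ζ : K) (M : ℕ) (A : Finset ℕ) (g : K[X])
    (h : (X - C ζ : K[X]) ^ p ^ (M + 1) ∣ P K A * g) :
    (X - C ζ : K[X]) ^ p ^ M ∣ P K (W A p M) * g := by
  have hp2 := hp.out.two_le
  have hr : 0 < p ^ M := pow_pos hp.out.pos M
  have hlt : p ^ M < p ^ (M + 1) := Nat.pow_lt_pow_right hp.out.one_lt (Nat.lt_succ_self M)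
  have hprime : Prime (X - C ζ : K[X]) := prime_X_sub_C ζ
  rcases pow_dvd_split hprime (p ^ (M + 1)) (p ^ (M + 1) - p ^ M) (p ^ M) (by omega) h (by omega)
    hr with h1 | h1
  · have h2 : (X - C ζ : K[X]) ^ (p ^ (M + 1) - p ^ M) ∣ red ζ (p ^ (M + 1)) A := by
      have h3 : (X - C ζ : K[X]) ^ (p ^ (M + 1) - p ^ M) ∣ P K A - red ζ (p ^ (M + 1)) A :=
        (pow_dvd_pow _ (Nat.sub_le _ _)).trans (red_dvd ζ (M + 1) A)
      have h4 := dvd_sub h1 h3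
      rwa [sub_sub_cancel] at h4
    obtain ⟨E, hE⟩ := h2
    have hdegF : (red ζ (p ^ (M + 1)) A).degree <
        ((p ^ (M + 1) - p ^ M + p ^ M : ℕ) : WithBot ℕ) := by
      rw [Nat.sub_add_cancel hlt.le]
      exact degree_sum_lt' A _ _ _ fun a _ => Nat.mod_lt _ (by omega)
    have hdegG : (red ζ (p ^ (M + 1)) (W A p M)).degree < ((p ^ M : ℕ) : WithBot ℕ) := by
      refine degree_sum_lt' _ _ _ _ fun a ha => ?_
      unfold W at ha
      exact (Finset.mem_filter.1 ha).2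
    have hG := trunc_eq (F := red ζ (p ^ (M + 1)) A)
      (H := (X - C ζ) ^ (p ^ (M + 1) - p ^ M)) (E := E)
      (G := red ζ (p ^ (M + 1)) (W A p M)) (r := p ^ M) (k := p ^ (M + 1) - p ^ M)
      (u := (ζ ^ p ^ M) ^ (p - 1)) ((monic_X_sub_C ζ).pow _)
      (by rw [(monic_X_sub_C ζ).natDegree_pow, natDegree_X_sub_C, mul_one])
      hdegF hE (geom_trunc ζ M) hdegG (red_trunc ζ M A)
    -- `(X - ζ) ^ r ∣ E * g`
    have h5 : (X - C ζ : K[X]) ^ p ^ (M + 1) ∣ red ζ (p ^ (M + 1)) A * g := by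
      have h6 := Dvd.dvd.mul_right (red_dvd (p := p) ζ (M + 1) A) g
      have h7 := dvd_sub h h6
      have h8 : P K A * g - (P K A - red ζ (p ^ (M + 1)) A) * g =
        red ζ (p ^ (M + 1)) A * g := by ring
      rwa [h8] at h7
    have h6 : (X - C ζ : K[X]) ^ p ^ M ∣ E * g := by
      have h7 : (X - C ζ : K[X]) ^ p ^ (M + 1) =
          (X - C ζ) ^ (p ^ (M + 1) - p ^ M) * (X - C ζ) ^ p ^ M := by
        rw [← pow_add, Nat.sub_add_cancel hlt.le]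
      rw [h7, hE, mul_assoc] at h5
      exact (mul_dvd_mul_iff_left (pow_ne_zero _ (X_sub_C_ne_zero ζ))).1 h5
    have h7 : (X - C ζ : K[X]) ^ p ^ M ∣ red ζ (p ^ (M + 1)) (W A p M) * g := by
      rw [hG, mul_assoc]
      exact Dvd.dvd.mul_left h6 _
    have h8 : (X - C ζ : K[X]) ^ p ^ M ∣
        (P K (W A p M) - red ζ (p ^ (M + 1)) (W A p M)) * g :=
      Dvd.dvd.mul_right ((pow_dvd_pow _ hlt.le).trans (red_dvd ζ (M + 1) (W A p M))) g
    have h9 := dvd_add h8 h7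
    have h10 : (P K (W A p M) - red ζ (p ^ (M + 1)) (W A p M)) * g +
        red ζ (p ^ (M + 1)) (W A p M) * g = P K (W A p M) * g := by ring
    rwa [h10] at h9
  · exact Dvd.dvd.mul_left h1 _

/-- the sum of the first `n` powers of `X` -/
noncomputable def T (K : Type*) [Semiring K] (n : ℕ) : K[X] := ∑ i ∈ range n, X ^ i

omit hp [CharP K p] in
theorem T_mul (n : ℕ) : T K n * (X - 1) = X ^ n - 1 := geom_sum_mul X n

theorem X_pow_sub_one_pow (j D' : ℕ) : (X : K[X]) ^ (p ^ j * D') - 1 = (X ^ D' - 1) ^ p ^ j := by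
  rw [sub_pow_char_pow, one_pow, ← pow_mul, mul_comm]

theorem natCast_pow_q (n j : ℕ) : (n : K) ^ p ^ j = n := by
  induction j with
  | zero => simp
  | succ j ih =>
    rw [pow_succ, pow_mul, ih, ← frobenius_def, map_natCast]

theorem T_mod (M D' : ℕ) : (X - C 1 : K[X]) ^ p ^ (M + 1) ∣
    T K (p ^ (M + 1) * D') - (X - C 1) ^ (p ^ (M + 1) - p ^ M) * T K (p ^ M * D') := by
  have hlt : p ^ M < p ^ (M + 1) := Nat.pow_lt_pow_right hp.out.one_lt (Nat.lt_succ_self M)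
  have h1 : (T K (p ^ (M + 1) * D') - (X - C 1) ^ (p ^ (M + 1) - p ^ M) * T K (p ^ M * D')) *
      (X - C 1) = (X - C 1) ^ p ^ (M + 1) * (T K D' ^ p ^ (M + 1) - T K D' ^ p ^ M) := by
    have h2 : (X - C 1 : K[X]) = X - 1 := by rw [C_1]
    have h3 : (X - 1 : K[X]) ^ (p ^ (M + 1) - p ^ M) * (X - 1) ^ p ^ M =
        (X - 1) ^ p ^ (M + 1) := by rw [← pow_add, Nat.sub_add_cancel hlt.le]
    rw [h2, sub_mul, T_mul, mul_assoc, T_mul, X_pow_sub_one_pow, X_pow_sub_one_pow, ← T_mul,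
      mul_pow, mul_pow, mul_sub, ← h3]
    ring
  have h4 : (X - C 1 : K[X]) ∣ T K D' ^ p ^ (M + 1) - T K D' ^ p ^ M := by
    rw [dvd_iff_isRoot, IsRoot.def, eval_sub, eval_pow, eval_pow]
    have h5 : eval 1 (T K D') = (D' : K) := by
      unfold T
      rw [eval_finsetSum]
      simp
    rw [h5, natCast_pow_q, natCast_pow_q, sub_self]
  obtain ⟨E, hE⟩ := h4
  refine ⟨E, ?_⟩
  refine mul_right_cancel₀ (X_sub_C_ne_zero (1 : K)) ?_
  rw [h1, hE]; ring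

theorem slab_one (M D' : ℕ) (A : Finset ℕ) (g : K[X])
    (hper : ∑ a ∈ A, (X : K[X]) ^ (a % p ^ (M + 1)) =
      (X - C 1) ^ (p ^ (M + 1) - p ^ M) * ∑ a ∈ W A p M, (X : K[X]) ^ (a % p ^ (M + 1)))
    (h : (X - C 1 : K[X]) ^ p ^ (M + 1) ∣ P K A * g - T K (p ^ (M + 1) * D')) :
    (X - C 1 : K[X]) ^ p ^ M ∣ P K (W A p M) * g - T K (p ^ M * D') := by
  have hlt : p ^ M < p ^ (M + 1) := Nat.pow_lt_pow_right hp.out.one_lt (Nat.lt_succ_self M)
  have hred : ∀ B : Finset ℕ, red (1 : K) (p ^ (M + 1)) B =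
      ∑ a ∈ B, (X : K[X]) ^ (a % p ^ (M + 1)) := by
    intro B
    unfold red
    exact Finset.sum_congr rfl fun a _ => by rw [one_pow, one_pow, C_1, one_mul]
  have h1 := red_dvd (p := p) (1 : K) (M + 1) A
  have h2 := red_dvd (p := p) (1 : K) (M + 1) (W A p M)
  rw [hred] at h1 h2
  set G := ∑ a ∈ W A p M, (X : K[X]) ^ (a % p ^ (M + 1)) with hG
  have h3 : (X - C 1 : K[X]) ^ p ^ (M + 1) ∣
      (X - C 1) ^ (p ^ (M + 1) - p ^ M) * (G * g - T K (p ^ M * D')) := by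
    have h4 := dvd_add (dvd_sub h (Dvd.dvd.mul_right h1 g)) (T_mod (K := K) (p := p) M D')
    rw [hper] at h4
    have h5 : P K A * g - T K (p ^ (M + 1) * D') -
        (P K A - (X - C 1) ^ (p ^ (M + 1) - p ^ M) * G) * g +
        (T K (p ^ (M + 1) * D') - (X - C 1) ^ (p ^ (M + 1) - p ^ M) * T K (p ^ M * D')) =
        (X - C 1) ^ (p ^ (M + 1) - p ^ M) * (G * g - T K (p ^ M * D')) := by ring
    rwa [h5] at h4
  have h6 : (X - C 1 : K[X]) ^ p ^ M ∣ G * g - T K (p ^ M * D') := by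
    have h7 : (X - C 1 : K[X]) ^ p ^ (M + 1) =
        (X - C 1) ^ (p ^ (M + 1) - p ^ M) * (X - C 1) ^ p ^ M := by
      rw [← pow_add, Nat.sub_add_cancel hlt.le]
    rw [h7] at h3
    exact (mul_dvd_mul_iff_left (pow_ne_zero _ (X_sub_C_ne_zero (1 : K)))).1 h3
  have h8 : (X - C 1 : K[X]) ^ p ^ M ∣ (P K (W A p M) - G) * g :=
    Dvd.dvd.mul_right ((pow_dvd_pow _ hlt.le).trans h2) g
  have h9 := dvd_add h8 h6
  have h10 : (P K (W A p M) - G) * g + (G * g - T K (p ^ M * D')) =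
      P K (W A p M) * g - T K (p ^ M * D') := by ring
  rwa [h10] at h9

theorem T_dvd {ζ : K} (hζ : ζ ≠ 1) {D' : ℕ} (h : ζ ^ D' = 1) (j : ℕ) :
    (X - C ζ : K[X]) ^ p ^ j ∣ T K (p ^ j * D') := by
  have h1 : (X - C ζ : K[X]) ∣ X ^ D' - 1 := by
    rw [dvd_iff_isRoot, IsRoot.def, eval_sub, eval_pow, eval_X, eval_one, h, sub_self]
  have h2 : (X - C ζ : K[X]) ^ p ^ j ∣ T K (p ^ j * D') * (X - C 1) := by
    rw [C_1, T_mul, X_pow_sub_one_pow]
    exact pow_dvd_pow_of_dvd h1 _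
  have h3 : IsCoprime ((X - C ζ : K[X]) ^ p ^ j) (X - C 1) :=
    (isCoprime_X_sub_C_of_isUnit_sub (sub_ne_zero.2 hζ).isUnit).pow_left
  exact h3.dvd_of_dvd_mul_right h2

theorem X_sub_C_pow_dvd {ζ : K} {D' : ℕ} (h : ζ ^ D' = 1) (j : ℕ) :
    (X - C ζ : K[X]) ^ p ^ j ∣ X ^ (p ^ j * D') - 1 := by
  have h1 : (X - C ζ : K[X]) ∣ X ^ D' - 1 := by
    rw [dvd_iff_isRoot, IsRoot.def, eval_sub, eval_pow, eval_X, eval_one, h, sub_self]
  rw [X_pow_sub_one_pow]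
  exact pow_dvd_pow_of_dvd h1 _

theorem prod_dvd {D' : ℕ} (hD' : 0 < D') {ζ0 : K} (hζ0 : IsPrimitiveRoot ζ0 D') (j : ℕ) {Q : K[X]}
    (h : ∀ ζ : K, ζ ^ D' = 1 → (X - C ζ : K[X]) ^ p ^ j ∣ Q) :
    (X : K[X]) ^ (p ^ j * D') - 1 ∣ Q := by
  rw [X_pow_sub_one_pow, X_pow_sub_one_eq_prod hD' hζ0, ← Finset.prod_pow]
  refine Finset.prod_dvd_of_coprime ?_ ?_
  · intro x _ y _ hxy
    exact (isCoprime_X_sub_C_of_isUnit_sub (sub_ne_zero.2 hxy).isUnit).pow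
  · intro ζ hζ
    exact h ζ ((mem_nthRootsFinset hD' 1).1 hζ)

end Field

end Pool.Agent.H96.CM
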