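import Pool.Agent.H96.CM.Main

/-!
# Signed sums over a tile

`C` is a fixed finite set. For a prime `p` that does not divide `C.card` the weight `w` is the
indicator function of the multiples of `p ^ e p`; otherwise it is the difference of the indicator
functions of two windows of length `p ^ (e p - 1)` modulo `p ^ e p`.
-/

namespace Pool.Agent.H96.CM

open Finset Polynomial

/-- the weights -/
def w (n : ℕ) (e : ℕ → ℕ) (p a : ℕ) : ℤ :=
  if p ∣ n then (if a % p ^ e p < p ^ (e p - 1) then 1 else 0) -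
    (if (a + (p ^ e p - 1)) % p ^ e p < p ^ (e p - 1) then 1 else 0)
  else (if p ^ e p ∣ a then 1 else 0)

theorem til_filter {B : Finset ℕ} {p : ℕ} (hp : p.Prime) (hB : ¬ p ∣ B.card) :
    ∀ (M : ℕ) (A : Finset ℕ) (D' : ℕ), 0 < D' → ¬ p ∣ D' → Til A B (p ^ M * D') →
      Til (A.filter (fun a => p ^ M ∣ a)) B D' := by
  intro M
  induction M with
  | zero =>
    intro A D' _ _ h
    rw [pow_zero, one_mul] at h
    have : A.filter (fun a => p ^ 0 ∣ a) = A := by
      refine Finset.filter_true_of_mem fun a _ => ?_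
      rw [pow_zero]; exact one_dvd a
    rw [this]; exact h
  | succ M ih =>
    intro A D' hD' hpD h
    have hDpos : 0 < p ^ (M + 1) * D' := Nat.mul_pos (pow_pos hp.pos _) hD'
    have hc : cyclotomic (p ^ (M + 1)) ℤ ∣ P ℤ A := by
      rcases h.cyc hDpos hp (Dvd.intro _ rfl) with h1 | h1
      · exact h1
      · exact absurd (dvd_card_of_cyc hp h1) hB
    have h1 := ih (W A p M) D' hD' hpD (slab hp hD' hpD h hc)
    have h2 : (W A p M).filter (fun a => p ^ M ∣ a) = A.filter (fun a => p ^ (M + 1) ∣ a) := by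
      unfold W
      rw [Finset.filter_filter]
      refine Finset.filter_congr fun a _ => ?_
      constructor
      · rintro ⟨h3, h4⟩
        have h5 : p ^ M ∣ a % p ^ (M + 1) :=
          (Nat.dvd_mod_iff (pow_dvd_pow p (Nat.le_succ M))).2 h4
        exact Nat.dvd_of_mod_eq_zero (Nat.eq_zero_of_dvd_of_lt h5 h3)
      · intro h3
        refine ⟨?_, (pow_dvd_pow p (Nat.le_succ M)).trans h3⟩
        rw [Nat.mod_eq_zero_of_dvd h3]
        exact pow_pos hp.pos M
    rwa [h2] at h1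

/-- the second window -/
theorem slab_shift {A B : Finset ℕ} {p M D' : ℕ} (hp : p.Prime) (hD' : 0 < D') (hpD : ¬ p ∣ D')
    (hT : Til A B (p ^ (M + 1) * D')) (hc : cyclotomic (p ^ (M + 1)) ℤ ∣ P ℤ A) (t : ℕ) :
    Til (A.filter (fun a => (a + t) % p ^ (M + 1) < p ^ M)) B (p ^ M * D') := by
  have hDpos : 0 < p ^ (M + 1) * D' := Nat.mul_pos (pow_pos hp.pos _) hD'
  have h1 := slab hp hD' hpD (hT.sh hDpos t) (by
    rw [P_sh]; exact Dvd.dvd.mul_right hc _)
  have h2 : W (sh A t) p M = sh (A.filter (fun a => (a + t) % p ^ (M + 1) < p ^ M)) t := by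
    unfold W sh
    rw [Finset.filter_image]
  rw [h2] at h1
  exact h1.of_sh

/-- the conditions on the modulus -/
def Cond (B : Finset ℕ) (e : ℕ → ℕ) (T : Finset ℕ) (D : ℕ) : Prop :=
  0 < D ∧ ∀ p ∈ T, p.Prime ∧ 0 < e p ∧ D.factorization p = e p ∧
    (p ∣ B.card → ¬ cyclotomic (p ^ e p) ℤ ∣ P ℤ B)

theorem exists_decomp {D p k : ℕ} (hD : 0 < D) (hp : p.Prime) (h : D.factorization p = k) :
    ∃ D', 0 < D' ∧ ¬ p ∣ D' ∧ D = p ^ k * D' := by
  subst h
  exact ⟨D / p ^ D.factorization p, Nat.ordCompl_pos p hD.ne', Nat.not_dvd_ordCompl hp hD.ne',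
    (Nat.ordProj_mul_ordCompl_eq_self D p).symm⟩

theorem fact_eq {p q k D' : ℕ} (hp : p.Prime) (hq : q ≠ p) (hD' : 0 < D') :
    (p ^ k * D').factorization q = D'.factorization q := by
  rw [Nat.factorization_mul (pow_pos hp.pos k).ne' hD'.ne', Finsupp.add_apply,
    hp.factorization_pow, Finsupp.single_eq_of_ne hq, zero_add]

theorem Cond.down {B : Finset ℕ} {e : ℕ → ℕ} {T : Finset ℕ} {p k l D' : ℕ} (hp : p.Prime)
    (hpT : p ∉ T) (hD' : 0 < D') (h : Cond B e (insert p T) (p ^ k * D')) :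
    Cond B e T (p ^ l * D') := by
  refine ⟨Nat.mul_pos (pow_pos hp.pos l) hD', fun q hq => ?_⟩
  obtain ⟨h1, h2, h3, h4⟩ := h.2 q (Finset.mem_insert_of_mem hq)
  have hne : q ≠ p := fun h5 => hpT (h5 ▸ hq)
  refine ⟨h1, h2, ?_, h4⟩
  rw [fact_eq hp hne hD'] at h3 ⊢
  exact h3

/-- a prime dividing `B.card` makes the sum vanish -/
theorem zero_step {B : Finset ℕ} {e : ℕ → ℕ} {T : Finset ℕ} {p : ℕ} (hpT : p ∉ T)
    (hdep : ∀ (D : ℕ) (A A' : Finset ℕ), Cond B e T D → Til A B D → Til A' B D →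
      ∑ a ∈ A, ∏ q ∈ T, w B.card e q a = ∑ a ∈ A', ∏ q ∈ T, w B.card e q a)
    {D : ℕ} {A : Finset ℕ} (hcond : Cond B e (insert p T) D) (hT : Til A B D)
    (hpB : p ∣ B.card) : ∑ a ∈ A, ∏ q ∈ insert p T, w B.card e q a = 0 := by
  obtain ⟨hp, he, hfac, hncyc⟩ := hcond.2 p (Finset.mem_insert_self p T)
  obtain ⟨M, hM⟩ : ∃ M, e p = M + 1 := ⟨e p - 1, (Nat.sub_add_cancel he).symm⟩
  obtain ⟨D', hD', hpD, rfl⟩ := exists_decomp hcond.1 hp hfac
  have hc : cyclotomic (p ^ (M + 1)) ℤ ∣ P ℤ A := by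
    rcases hT.cyc hcond.1 hp (M := M) (by rw [hM]; exact Dvd.intro _ rfl) with h1 | h1
    · exact h1
    · rw [← hM] at h1
      exact absurd h1 (hncyc hpB)
  have hT' : Til A B (p ^ (M + 1) * D') := by rw [← hM]; exact hT
  have h0 := slab hp hD' hpD hT' hc
  have h1 := slab_shift hp hD' hpD hT' hc (p ^ (M + 1) - 1)
  have h2 := hdep (p ^ M * D') _ _ (Cond.down hp hpT hD' hcond) h0 h1
  have h3 : ∀ a ∈ A, ∏ q ∈ insert p T, w B.card e q a =
      (if a % p ^ (M + 1) < p ^ M then ∏ q ∈ T, w B.card e q a else 0) -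
      (if (a + (p ^ (M + 1) - 1)) % p ^ (M + 1) < p ^ M then ∏ q ∈ T, w B.card e q a else 0) := by
    intro a _
    rw [Finset.prod_insert hpT]
    have h4 : w B.card e p a = (if a % p ^ (M + 1) < p ^ M then 1 else 0) -
        (if (a + (p ^ (M + 1) - 1)) % p ^ (M + 1) < p ^ M then 1 else 0) := by
      unfold w
      rw [if_pos hpB, hM, Nat.add_sub_cancel]
    rw [h4, sub_mul, ite_mul, ite_mul, one_mul, zero_mul]
  rw [Finset.sum_congr rfl h3, Finset.sum_sub_distrib, ← Finset.sum_filter, ← Finset.sum_filter,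
    sub_eq_zero]
  exact h2

theorem dep {B : Finset ℕ} {e : ℕ → ℕ} (T : Finset ℕ) :
    ∀ (D : ℕ) (A A' : Finset ℕ), Cond B e T D → Til A B D → Til A' B D →
      ∑ a ∈ A, ∏ q ∈ T, w B.card e q a = ∑ a ∈ A', ∏ q ∈ T, w B.card e q a := by
  classical
  induction T using Finset.induction_on with
  | empty =>
    intro D A A' hc hA hA'
    have h1 := hA.card_mul hc.1
    have h2 := hA'.card_mul hc.1
    have hB : 0 < B.card := by
      rcases Nat.eq_zero_or_pos B.card with h | h
      · rw [h, mul_zero] at h1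
        exact absurd h1 hc.1.ne
      · exact h
    have h3 : A.card = A'.card := Nat.eq_of_mul_eq_mul_right hB (h1.trans h2.symm)
    simp [h3]
  | insert p T hpT ih =>
    intro D A A' hc hA hA'
    by_cases hpB : p ∣ B.card
    · rw [zero_step hpT ih hc hA hpB, zero_step hpT ih hc hA' hpB]
    · obtain ⟨hp, he, hfac, -⟩ := hc.2 p (Finset.mem_insert_self p T)
      obtain ⟨D', hD', hpD, rfl⟩ := exists_decomp hc.1 hp hfac
      have h1 := til_filter hp hpB (e p) A D' hD' hpD hA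
      have h2 := til_filter hp hpB (e p) A' D' hD' hpD hA'
      have hc' : Cond B e T D' := by
        have := Cond.down (l := 0) hp hpT hD' hc
        rwa [pow_zero, one_mul] at this
      have h3 := ih D' _ _ hc' h1 h2
      have h4 : ∀ A : Finset ℕ, ∑ a ∈ A, ∏ q ∈ insert p T, w B.card e q a =
          ∑ a ∈ A.filter (fun a => p ^ e p ∣ a), ∏ q ∈ T, w B.card e q a := by
        intro A
        rw [Finset.sum_filter]
        refine Finset.sum_congr rfl fun a _ => ?_
        rw [Finset.prod_insert hpT]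
        unfold w
        rw [if_neg hpB, ite_mul, one_mul, zero_mul]
      rw [h4, h4]
      exact h3

/-- the signed sum vanishes if some prime of `T` divides `B.card` -/
theorem sum_eq_zero {B : Finset ℕ} {e : ℕ → ℕ} {T : Finset ℕ} {D p : ℕ} {A : Finset ℕ}
    (hc : Cond B e T D) (hA : Til A B D) (hpT : p ∈ T) (hpB : p ∣ B.card) :
    ∑ a ∈ A, ∏ q ∈ T, w B.card e q a = 0 := by
  classical
  have h1 : insert p (T.erase p) = T := Finset.insert_erase hpT
  rw [← h1] at hc ⊢
  exact zero_step (Finset.notMem_erase p T) (dep (T.erase p)) hc hA hpB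

end Pool.Agent.H96.CM
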